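import Mathlib

/-!
Tree lemmas: unique closer neighbour, cutting an edge, lifting of labels (deck transformations).
-/

namespace Pool.Agent.H555RG

open SimpleGraph

variable {V : Type*}

/-- In a tree a vertex has at most one neighbour closer to the root. -/
theorem closer_unique {T : SimpleGraph V} (hT : T.IsTree) (o z w w' : V)
    (h1 : T.Adj w z) (h2 : T.Adj w' z) (d1 : T.dist o z = T.dist o w + 1)
    (d2 : T.dist o z = T.dist o w' + 1) : w = w' := by
  classical
  obtain ⟨p, hp, hpl⟩ := (hT.connected o w).exists_path_of_dist
  obtain ⟨p', hp', hpl'⟩ := (hT.connected o w').exists_path_of_dist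
  have hz : z ∉ p.support := by
    intro hz
    have := dist_le (p.takeUntil z hz)
    have h3 := p.length_takeUntil_le_length hz
    omega
  have hz' : z ∉ p'.support := by
    intro hz
    have := dist_le (p'.takeUntil z hz)
    have h3 := p'.length_takeUntil_le_length hz
    omega
  have e := (hT.isAcyclic.subsingleton_path o z).elim ⟨_, hp.concat hz h1⟩ ⟨_, hp'.concat hz' h2⟩
  have e2 : p.concat h1 = p'.concat h2 := Subtype.ext_iff.1 e
  have e3 := congrArg Walk.penultimate e2
  simpa using e3

/-- Existence of a closer neighbour. -/
theorem exists_closer {T : SimpleGraph V} (hT : T.IsTree) (o z : V) (h : z ≠ o) :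
    ∃ w, T.Adj w z ∧ T.dist o z = T.dist o w + 1 := by
  obtain ⟨p, hp, hpl⟩ := (hT.connected o z).exists_path_of_dist
  have hnil : ¬ p.Nil := by
    intro hn
    exact h (hn.eq).symm
  refine ⟨p.penultimate, p.adj_penultimate hnil, ?_⟩
  have h1 : T.dist o p.penultimate ≤ p.dropLast.length := dist_le _
  have h2 : T.dist o z ≤ T.dist o p.penultimate + 1 := by
    have := hT.connected.dist_triangle (u := o) (v := p.penultimate) (w := z)
    have h3 : T.dist p.penultimate z = 1 := dist_eq_one_iff_adj.2 (p.adj_penultimate hnil)
    omega
  have h4 : p.dropLast.length + 1 = p.length := by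
    have := p.length_dropLast_add_one hnil
    exact this
  omega

/-- The side of `x` of the edge `xy`. -/
def side (T : SimpleGraph V) (x y : V) : Set V := {z | T.dist z x < T.dist z y}

theorem side_cut {T : SimpleGraph V} (hT : T.IsTree) {x y : V} (hxy : T.Adj x y) {s t : V}
    (hst : T.Adj s t) (hs : s ∈ side T x y) (ht : t ∉ side T x y) : s = x ∧ t = y := by
  have hs' : T.dist s x < T.dist s y := hs
  have ht' : ¬ T.dist t x < T.dist t y := ht
  have e1 := hT.dist_eq_dist_add_one_of_adj s hxy
  have e2 := hT.dist_eq_dist_add_one_of_adj t hxy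
  have e3 := hT.dist_eq_dist_add_one_of_adj x hst
  have e4 := hT.dist_eq_dist_add_one_of_adj y hst
  have c1 : T.dist x s = T.dist s x := dist_comm
  have c2 : T.dist x t = T.dist t x := dist_comm
  have c3 : T.dist y s = T.dist s y := dist_comm
  have c4 : T.dist y t = T.dist t y := dist_comm
  -- d(s,x) = d, d(s,y) = d+1, d(t,y) = d, d(t,x) = d+1
  have hd : T.dist t y = T.dist s x := by omega
  by_cases hx : s = x
  · subst hx
    have h0 : T.dist s s = 0 := dist_self
    refine ⟨rfl, ?_⟩
    have : T.dist t y = 0 := by omega
    exact (hT.connected.dist_eq_zero_iff).1 this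
  · exfalso
    -- from root s, the vertex y has the closer neighbour x; also a closer neighbour towards t
    have hpos : 0 < T.dist s x := hT.connected.pos_dist_of_ne hx
    have hty : y ≠ t := by
      intro h
      subst h
      have h0 : T.dist y y = 0 := dist_self
      omega
    obtain ⟨v, hv1, hv2⟩ := exists_closer hT t y hty
    have h5 : T.dist s v ≤ T.dist t v + 1 := by
      have := hT.connected.dist_triangle (u := s) (v := t) (w := v)
      have h3 : T.dist s t = 1 := dist_eq_one_iff_adj.2 hst
      omega
    have h6 := hT.dist_eq_dist_add_one_of_adj s hv1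
    have h7 : v = x := closer_unique hT s y v x hv1 hxy (by omega) (by omega)
    subst h7
    omega

end Pool.Agent.H555RG
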