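import Mathlib
import Pool.Agent.H555RG.Tree

/-!
Data of a tree covering a finite bicoloured label set, and its deck transformations.
-/

namespace Pool.Agent.H555RG

open SimpleGraph

/-- A tree `T` with labels in `L` (two colours), such that every vertex has exactly one neighbour of
each label of the other colour; symmetric weights; a potential `b` (the eigenvalue is
already subtracted). -/
structure Dat (V L : Type) [Fintype L] where
  T : SimpleGraph V
  tree : T.IsTree
  lab : V → L
  col : L → Bool
  nb : V → L → V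
  nb_adj : ∀ x l, col (lab x) ≠ col l → T.Adj x (nb x l)
  nb_lab : ∀ x l, col (lab x) ≠ col l → lab (nb x l) = l
  nb_eq : ∀ x y, T.Adj x y → nb x (lab y) = y
  adj_col : ∀ x y, T.Adj x y → col (lab x) ≠ col (lab y)
  w : L → L → ℝ
  w_symm : ∀ i j, w i j = w j i
  w_pos : ∀ i j, col i ≠ col j → 0 < w i j
  w_zero : ∀ i j, col i = col j → w i j = 0
  b : L → ℝ

variable {V L : Type} [Fintype L] (D : Dat V L)

namespace Dat

/-- Lift the labels along a walk, starting at another vertex. -/
def lift : ∀ {u v : V}, D.T.Walk u v → V → V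
  | _, _, .nil, y => y
  | _, _, .cons (v := v') _ p, y => lift p (D.nb y (D.lab v'))

theorem lab_lift : ∀ {u v : V} (p : D.T.Walk u v) (y : V), D.lab y = D.lab u →
    D.lab (D.lift p y) = D.lab v
  | _, _, .nil, y, h => h
  | _, _, .cons (v := v') hh p, y, h => by
    have h1 : D.lab (D.nb y (D.lab v')) = D.lab v' := by
      apply D.nb_lab
      rw [h]
      exact D.adj_col _ _ hh
    exact lab_lift p _ h1

theorem lift_concat : ∀ {u v z : V} (p : D.T.Walk u v) (h : D.T.Adj v z) (y : V),
    D.lift (p.concat h) y = D.nb (D.lift p y) (D.lab z)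
  | _, _, _, .nil, h, y => rfl
  | _, _, _, .cons hh p, h, y => by
    rw [Walk.concat_cons]
    exact lift_concat p h _

theorem exists_hom {x y : V} (h : D.lab x = D.lab y) :
    ∃ s : V → V, s x = y ∧ (∀ z, D.lab (s z) = D.lab z) ∧
      ∀ z z', D.T.Adj z z' → D.T.Adj (s z) (s z') := by
  classical
  choose P hP using fun z => (D.tree.existsUnique_path x z).exists
  have hlab : ∀ z, D.lab (D.lift (P z) y) = D.lab z := fun z => D.lab_lift (P z) y h.symm
  have key : ∀ z z' (hz : D.T.Adj z z'), P z' = (P z).concat hz →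
      D.T.Adj (D.lift (P z) y) (D.lift (P z') y) := by
    intro z z' hz he
    rw [he, lift_concat]
    apply D.nb_adj
    rw [hlab z]
    exact D.adj_col _ _ hz
  refine ⟨fun z => D.lift (P z) y, ?_, hlab, ?_⟩
  · have : P x = Walk.nil := by
      have := (D.tree.isAcyclic.subsingleton_path x x).elim ⟨P x, hP x⟩ ⟨Walk.nil, by simp⟩
      exact Subtype.ext_iff.1 this
    simp only [this]
    rfl
  · intro z z' hz
    by_cases hm : z ∈ (P z').support
    · exact key z z' hz (D.tree.isAcyclic.path_concat (hP z) (hP z') hz hm)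
    · have hm' := D.tree.isAcyclic.mem_support_of_ne_mem_support_of_adj_of_isPath
        (hP z) (hP z') hz hm
      exact (key z' z hz.symm
        (D.tree.isAcyclic.path_concat (hP z') (hP z) hz.symm hm')).symm

theorem hom_fix {t : V → V} (hl : ∀ z, D.lab (t z) = D.lab z)
    (ha : ∀ z z', D.T.Adj z z' → D.T.Adj (t z) (t z')) :
    ∀ {u v : V} (_ : D.T.Walk u v), t u = u → t v = v
  | _, _, .nil, h => h
  | u, _, .cons (v := v') hh p, h => by
    apply hom_fix hl ha p
    have h1 := ha u v' hh
    rw [h] at h1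
    have h2 := D.nb_eq _ _ h1
    rw [hl v', D.nb_eq _ _ hh] at h2
    exact h2.symm

theorem hom_id {t : V → V} (hl : ∀ z, D.lab (t z) = D.lab z)
    (ha : ∀ z z', D.T.Adj z z' → D.T.Adj (t z) (t z')) {x : V} (hx : t x = x) (z : V) :
    t z = z := by
  obtain ⟨p⟩ := D.tree.connected x z
  exact D.hom_fix hl ha p hx

/-- Deck transformations act transitively on each fibre. -/
theorem exists_deck {x y : V} (h : D.lab x = D.lab y) :
    ∃ s : V ≃ V, s x = y ∧ (∀ z, D.lab (s z) = D.lab z) ∧
      (∀ z l, D.col (D.lab z) ≠ D.col l → D.nb (s z) l = s (D.nb z l)) := by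
  obtain ⟨s, s1, s2, s3⟩ := D.exists_hom h
  obtain ⟨t, t1, t2, t3⟩ := D.exists_hom h.symm
  have e1 : ∀ z, t (s z) = z := by
    intro z
    exact D.hom_id (t := fun z => t (s z)) (fun z => by rw [t2, s2])
      (fun z z' hz => t3 _ _ (s3 _ _ hz)) (x := x) (by simp only [s1, t1]) z
  have e2 : ∀ z, s (t z) = z := by
    intro z
    exact D.hom_id (t := fun z => s (t z)) (fun z => by rw [s2, t2])
      (fun z z' hz => s3 _ _ (t3 _ _ hz)) (x := y) (by simp only [s1, t1]) z
  refine ⟨⟨s, t, e1, e2⟩, s1, s2, ?_⟩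
  intro z l hz
  have h1 := s3 _ _ (D.nb_adj z l hz)
  have h2 := D.nb_eq _ _ h1
  rw [s2, D.nb_lab z l hz] at h2
  exact h2

end Dat

end Pool.Agent.H555RG
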