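import Mathlib
import Pool.Agent.H555RG.Deck

/-!
The Hilbert space, the operator and its kernel.
-/

namespace Pool.Agent.H555RG

open scoped ENNReal InnerProductSpace

variable {V L : Type} [Fintype L]

/-- Real square summable functions. -/
abbrev E2 (V : Type) := lp (fun _ : V => ℝ) 2

theorem summable_sq (f : E2 V) : Summable fun x => f x ^ 2 := by
  have := (memℓp_gen_iff (p := 2) (by norm_num)).1 (lp.memℓp f)
  simpa using this

/-- Build an element of the Hilbert space from a square summable function. -/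
def mk2 (f : V → ℝ) (hf : Summable fun x => f x ^ 2) : E2 V :=
  ⟨f, memℓp_gen (by simpa using hf)⟩

@[simp] theorem mk2_apply (f : V → ℝ) (hf : Summable fun x => f x ^ 2) (x : V) :
    mk2 f hf x = f x := rfl

theorem inner_E2 (f g : E2 V) : ⟪f, g⟫_ℝ = ∑' x, f x * g x := by
  rw [lp.inner_eq_tsum]
  apply tsum_congr
  intro x
  simp [mul_comm]

open Classical in
/-- Unit vector at `x`. -/
noncomputable def dl (x : V) : E2 V := lp.single 2 x 1

open Classical in
theorem dl_apply (x z : V) : dl x z = if z = x then 1 else 0 := by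
  unfold dl
  by_cases h : z = x
  · subst h
    simp
  · rw [lp.single_apply_ne _ _ _ h, if_neg h]

theorem inner_dl (x : V) (f : E2 V) : ⟪dl x, f⟫_ℝ = f x := by
  classical
  unfold dl
  rw [lp.inner_single_left]
  simp

namespace Dat

variable (D : Dat V L)

/-- The operator (eigenvalue subtracted). -/
def op (f : V → ℝ) (x : V) : ℝ :=
  D.b (D.lab x) * f x + ∑ l, D.w (D.lab x) l * f (D.nb x l)

theorem op_add (f g : E2 V) (x : V) : D.op (f + g : E2 V) x = D.op f x + D.op g x := by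
  simp only [op, lp.coeFn_add, Pi.add_apply, mul_add, Finset.sum_add_distrib]
  ring

theorem op_sub (f g : E2 V) (x : V) : D.op (f - g : E2 V) x = D.op f x - D.op g x := by
  simp only [op, lp.coeFn_sub, Pi.sub_apply, mul_sub, Finset.sum_sub_distrib]
  ring

theorem op_smul (c : ℝ) (f : E2 V) (x : V) : D.op (c • f : E2 V) x = c * D.op f x := by
  simp only [op, lp.coeFn_smul, Pi.smul_apply, smul_eq_mul, mul_add, Finset.mul_sum]
  congr 1
  · ring
  · exact Finset.sum_congr rfl (fun l _ => by ring)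

/-- The rows of the operator. -/
noncomputable def eta (x : V) : E2 V :=
  D.b (D.lab x) • dl x + ∑ l, D.w (D.lab x) l • dl (D.nb x l)

theorem inner_eta (x : V) (f : E2 V) : ⟪D.eta x, f⟫_ℝ = D.op f x := by
  unfold eta op
  rw [inner_add_left, real_inner_smul_left, inner_dl, sum_inner]
  congr 1
  apply Finset.sum_congr rfl
  intro l _
  rw [real_inner_smul_left, inner_dl]

/-- The eigenspace. -/
noncomputable def N : Submodule ℝ (E2 V) := (Submodule.span ℝ (Set.range D.eta))ᗮ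

theorem mem_N {f : E2 V} : f ∈ D.N ↔ ∀ x, D.op f x = 0 := by
  unfold N
  rw [Submodule.mem_orthogonal]
  constructor
  · intro h x
    rw [← inner_eta]
    exact h _ (Submodule.subset_span ⟨x, rfl⟩)
  · intro h u hu
    induction hu using Submodule.span_induction with
    | mem u hu =>
      obtain ⟨x, rfl⟩ := hu
      rw [inner_eta, h x]
    | zero => simp
    | add u v _ _ hu hv => rw [inner_add_left, hu, hv, add_zero]
    | smul c u _ hu => rw [real_inner_smul_left, hu, mul_zero]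

theorem decomp (f : E2 V) : ∃ n ∈ D.N, ∃ g ∈ D.Nᗮ, f = n + g := by
  have hcl : IsClosed (D.N : Set (E2 V)) := by
    unfold N
    exact Submodule.isClosed_orthogonal _
  have : CompleteSpace D.N := hcl.completeSpace_coe
  have : D.N.HasOrthogonalProjection := Submodule.HasOrthogonalProjection.ofCompleteSpace D.N
  exact Submodule.exists_add_mem_mem_orthogonal f

/-- Some eigenfunction is nonzero at `x`. -/
def InF (x : V) : Prop := ∃ u ∈ D.N, u x ≠ 0

theorem off {x : V} (h : ¬ D.InF x) {u : E2 V} (hu : u ∈ D.N) : u x = 0 := by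
  by_contra h1
  exact h ⟨u, hu, h1⟩

/-! ### Deck transformations acting on functions -/

/-- Composition with a permutation. -/
def cmp (s : V ≃ V) (f : E2 V) : E2 V :=
  mk2 (fun x => f (s x)) ((s.summable_iff (f := fun x => f x ^ 2)).2 (summable_sq f))

@[simp] theorem cmp_apply (s : V ≃ V) (f : E2 V) (x : V) : cmp s f x = f (s x) := rfl

theorem inner_cmp (s : V ≃ V) (f g : E2 V) : ⟪cmp s f, g⟫_ℝ = ⟪f, cmp s.symm g⟫_ℝ := by
  rw [inner_E2, inner_E2, ← s.tsum_eq (fun x => f x * cmp s.symm g x)]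
  apply tsum_congr
  intro x
  simp

theorem op_cmp {s : V ≃ V} (h1 : ∀ z, D.lab (s z) = D.lab z)
    (h2 : ∀ z l, D.col (D.lab z) ≠ D.col l → D.nb (s z) l = s (D.nb z l)) (f : E2 V) (z : V) :
    D.op (cmp s f) z = D.op f (s z) := by
  unfold op
  rw [h1 z]
  congr 1
  apply Finset.sum_congr rfl
  intro l _
  by_cases h : D.col (D.lab z) = D.col l
  · rw [D.w_zero _ _ h]
    simp
  · rw [cmp_apply, h2 z l h]

/-- The inverse of a deck transformation. -/
theorem symm_deck {s : V ≃ V} (h1 : ∀ z, D.lab (s z) = D.lab z)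
    (h2 : ∀ z l, D.col (D.lab z) ≠ D.col l → D.nb (s z) l = s (D.nb z l)) :
    (∀ z, D.lab (s.symm z) = D.lab z) ∧
    (∀ z l, D.col (D.lab z) ≠ D.col l → D.nb (s.symm z) l = s.symm (D.nb z l)) := by
  have e : ∀ z, D.lab (s.symm z) = D.lab z := by
    intro z
    rw [← h1 (s.symm z), s.apply_symm_apply]
  refine ⟨e, ?_⟩
  intro z l hz
  have := h2 (s.symm z) l (by rw [e]; exact hz)
  rw [s.apply_symm_apply] at this
  rw [this, s.symm_apply_apply]

theorem cmp_mem {s : V ≃ V} (h1 : ∀ z, D.lab (s z) = D.lab z)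
    (h2 : ∀ z l, D.col (D.lab z) ≠ D.col l → D.nb (s z) l = s (D.nb z l)) {f : E2 V}
    (hf : f ∈ D.N) : cmp s f ∈ D.N := by
  rw [mem_N] at hf ⊢
  intro x
  rw [D.op_cmp h1 h2, hf]

theorem InF_lab {x y : V} (h : D.lab x = D.lab y) (hx : D.InF x) : D.InF y := by
  obtain ⟨s, s1, s2, s3⟩ := D.exists_deck h.symm
  obtain ⟨u, hu, hux⟩ := hx
  refine ⟨cmp s u, D.cmp_mem s2 s3 hu, ?_⟩
  rw [cmp_apply, s1]
  exact hux

/-! ### The functions `g_y` -/

open Classical in
/-- `g` is the least solution of `(H - lam) g = delta_y`. -/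
def IsG (y : V) (g : E2 V) : Prop := (∀ z, D.op g z = if z = y then 1 else 0) ∧ g ∈ D.Nᗮ

theorem IsG.unique {y : V} {g g' : E2 V} (h : D.IsG y g) (h' : D.IsG y g') : g = g' := by
  have h1 : g - g' ∈ D.N := by
    rw [mem_N]
    intro x
    rw [D.op_sub, h.1 x, h'.1 x, sub_self]
  have h2 : g - g' ∈ D.Nᗮ := Submodule.sub_mem _ h.2 h'.2
  have h3 : ⟪g - g', g - g'⟫_ℝ = 0 := Submodule.inner_right_of_mem_orthogonal h1 h2
  have h4 := inner_self_eq_zero.1 h3
  exact sub_eq_zero.1 h4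

theorem IsG.inv {y y' : V} {g g' : E2 V} (h : D.IsG y g) (h' : D.IsG y' g')
    (hl : D.lab y = D.lab y') (l : L) (hc : D.col (D.lab y) ≠ D.col l) :
    g (D.nb y l) = g' (D.nb y' l) := by
  obtain ⟨s, s1, s2, s3⟩ := D.exists_deck hl
  have h1 : D.IsG y (cmp s g') := by
    refine ⟨?_, ?_⟩
    · intro z
      rw [D.op_cmp s2 s3, h'.1]
      by_cases hz : z = y
      · subst hz
        simp [s1]
      · rw [if_neg hz, if_neg]
        intro h5
        exact hz (s.injective (h5.trans s1.symm))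
    · rw [Submodule.mem_orthogonal]
      intro v hv
      rw [real_inner_comm, inner_cmp]
      obtain ⟨t1, t2⟩ := D.symm_deck s2 s3
      have h6 := D.cmp_mem t1 t2 hv
      rw [real_inner_comm]
      exact Submodule.inner_right_of_mem_orthogonal h6 h'.2
  have h2 := IsG.unique D h h1
  rw [h2, cmp_apply, ← s1, s3 _ _ hc]

theorem IsG.sum {y : V} {g : E2 V} (h : D.IsG y g) (h0 : g y = 0) :
    ∑ l, D.w (D.lab y) l * g (D.nb y l) = 1 := by
  have := h.1 y
  unfold op at this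
  rw [h0, mul_zero, zero_add, if_pos rfl] at this
  exact this

/-- The trace inequality. -/
theorem trace_lt {J : Type} (I : Finset J) (f : E2 V) (yy : J → V) (g : J → E2 V) (c t : J → ℝ)
    (hG : ∀ j ∈ I, D.IsG (yy j) (g j))
    (hop : ∀ z, D.op f z = ∑ j ∈ I, c j * D.op (g j) z)
    (hin : ∀ j ∈ I, c j * ⟪g j, f⟫_ℝ = t j * ⟪f, f⟫_ℝ)
    (hu : ∃ u ∈ D.N, ⟪u, f⟫_ℝ ≠ 0) : ∑ j ∈ I, t j < 1 := by
  obtain ⟨u, hu, hne⟩ := hu
  have hsum : ∀ z, D.op ((∑ j ∈ I, c j • g j : E2 V)) z = ∑ j ∈ I, c j * D.op (g j) z := by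
    intro z
    rw [← inner_eta, inner_sum]
    apply Finset.sum_congr rfl
    intro j _
    rw [real_inner_smul_right, inner_eta]
  set q : E2 V := f - ∑ j ∈ I, c j • g j with hq
  have hqN : q ∈ D.N := by
    rw [mem_N]
    intro z
    rw [hq, D.op_sub, hsum, hop, sub_self]
  have horth : ∀ v ∈ D.N, ⟪v, (∑ j ∈ I, c j • g j : E2 V)⟫_ℝ = 0 := by
    intro v hv
    rw [inner_sum]
    apply Finset.sum_eq_zero
    intro j hj
    rw [real_inner_smul_right, Submodule.inner_right_of_mem_orthogonal hv (hG j hj).2, mul_zero]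
  have h1 : ⟪q, q⟫_ℝ = ⟪q, f⟫_ℝ := by
    have : ⟪q, q⟫_ℝ = ⟪q, f⟫_ℝ - ⟪q, (∑ j ∈ I, c j • g j : E2 V)⟫_ℝ := by
      rw [← inner_sub_right]
    rw [this, horth q hqN, sub_zero]
  have h2 : ⟪q, f⟫_ℝ = ⟪f, f⟫_ℝ * (1 - ∑ j ∈ I, t j) := by
    rw [hq, inner_sub_left, sum_inner]
    have : ∑ j ∈ I, ⟪c j • g j, f⟫_ℝ = (∑ j ∈ I, t j) * ⟪f, f⟫_ℝ := by
      rw [Finset.sum_mul]
      apply Finset.sum_congr rfl
      intro j hj
      rw [real_inner_smul_left, hin j hj]
    rw [this]
    ring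
  have h3 : q ≠ 0 := by
    intro h0
    apply hne
    have : ⟪u, q⟫_ℝ = ⟪u, f⟫_ℝ - ⟪u, (∑ j ∈ I, c j • g j : E2 V)⟫_ℝ := by
      rw [hq, ← inner_sub_right]
    rw [horth u hu, sub_zero, h0, inner_zero_right] at this
    exact this.symm
  have h4 : 0 < ⟪q, q⟫_ℝ := real_inner_self_pos.2 h3
  rw [h1, h2] at h4
  have h5 : 0 ≤ ⟪f, f⟫_ℝ := real_inner_self_nonneg
  by_contra h6
  push Not at h6
  have : ⟪f, f⟫_ℝ * (1 - ∑ j ∈ I, t j) ≤ 0 :=
    mul_nonpos_of_nonneg_of_nonpos h5 (by linarith)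
  linarith

end Dat

end Pool.Agent.H555RG
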