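import Mathlib
import Pool.Agent.H555RG.Hilb

/-!
Symmetry of the operator, cutting an edge, existence of the functions `g_y`.
-/

namespace Pool.Agent.H555RG

open scoped ENNReal InnerProductSpace

variable {V L : Type} [Fintype L]

namespace Dat

variable (D : Dat V L)

open Classical in
/-- Reversal of darts. -/
noncomputable def rev (p : V × L) : V × L :=
  if D.col (D.lab p.1) = D.col p.2 then p else (D.nb p.1 p.2, D.lab p.1)

theorem rev_rev (p : V × L) : D.rev (D.rev p) = p := by
  unfold rev
  by_cases h : D.col (D.lab p.1) = D.col p.2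
  · simp [h]
  · rw [if_neg h]
    have h1 := D.nb_lab p.1 p.2 h
    have h2 := D.nb_adj p.1 p.2 h
    rw [if_neg]
    · simp only [h1]
      have h3 := D.nb_eq _ _ h2.symm
      rw [h3]
    · simp only [h1]
      exact fun h4 => h h4.symm

/-- Reversal of darts as an equivalence. -/
noncomputable def revE : (V × L) ≃ (V × L) := ⟨D.rev, D.rev, D.rev_rev, D.rev_rev⟩

/-- A bound for the weights. -/
noncomputable def W : ℝ := ∑ i, ∑ j, |D.w i j|

theorem le_W (i j : L) : |D.w i j| ≤ D.W := by
  unfold W
  calc |D.w i j| ≤ ∑ j, |D.w i j| :=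
        Finset.single_le_sum (f := fun j => |D.w i j|) (fun _ _ => abs_nonneg _) (Finset.mem_univ j)
    _ ≤ _ := Finset.single_le_sum (f := fun i => ∑ j, |D.w i j|)
        (fun _ _ => Finset.sum_nonneg (fun _ _ => abs_nonneg _)) (Finset.mem_univ i)

/-- Off-diagonal part of the quadratic form, as a function of darts. -/
def F (f v : E2 V) (p : V × L) : ℝ := D.w (D.lab p.1) p.2 * f (D.nb p.1 p.2) * v p.1

theorem F_rev (f v : E2 V) (p : V × L) : D.F f v (D.revE p) = D.F v f p := by
  unfold F revE
  simp only [Equiv.coe_fn_mk]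
  unfold rev
  by_cases h : D.col (D.lab p.1) = D.col p.2
  · rw [if_pos h, D.w_zero _ _ h]
    simp
  · rw [if_neg h]
    simp only
    rw [D.nb_lab _ _ h, D.nb_eq _ _ (D.nb_adj _ _ h).symm, D.w_symm]
    ring

theorem summable_fst (v : E2 V) : Summable fun p : V × L => v p.1 ^ 2 := by
  have h := Summable.mul_of_nonneg (summable_sq v)
    (show Summable (fun _ : L => (1 : ℝ)) from (hasSum_fintype _).summable)
    (fun x => sq_nonneg _) (fun _ => zero_le_one)
  simpa using h

theorem summable_F (f v : E2 V) : Summable (D.F f v) := by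
  have h1 := summable_fst (L := L) v
  have h2 := (D.revE.summable_iff (f := fun p : V × L => f p.1 ^ 2)).2 (summable_fst (L := L) f)
  have h3 := (h1.add h2).mul_left D.W
  refine Summable.of_norm_bounded h3 ?_
  intro p
  rw [Real.norm_eq_abs]
  by_cases h : D.col (D.lab p.1) = D.col p.2
  · have h4 : D.F f v p = 0 := by
      unfold F
      rw [D.w_zero _ _ h]
      ring
    rw [h4, abs_zero]
    have h5 : 0 ≤ D.W := le_trans (abs_nonneg _) (D.le_W p.2 p.2)
    have h6 : 0 ≤ ((fun p : V × L => f p.1 ^ 2) ∘ D.revE) p := by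
      simp only [Function.comp]
      positivity
    positivity
  · have e : ((fun p : V × L => f p.1 ^ 2) ∘ D.revE) p = f (D.nb p.1 p.2) ^ 2 := by
      simp only [Function.comp, revE, Equiv.coe_fn_mk, rev]
      rw [if_neg h]
    rw [e]
    unfold F
    rw [abs_mul, abs_mul, mul_assoc]
    have h5 := D.le_W (D.lab p.1) p.2
    have h6 : |f (D.nb p.1 p.2)| * |v p.1| ≤ v p.1 ^ 2 + f (D.nb p.1 p.2) ^ 2 := by
      have e1 := sq_abs (f (D.nb p.1 p.2))
      have e2 := sq_abs (v p.1)
      nlinarith [sq_nonneg (|f (D.nb p.1 p.2)| - |v p.1|), abs_nonneg (f (D.nb p.1 p.2)),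
        abs_nonneg (v p.1)]
    calc _ ≤ D.W * (|f (D.nb p.1 p.2)| * |v p.1|) :=
          mul_le_mul_of_nonneg_right h5 (by positivity)
      _ ≤ _ := mul_le_mul_of_nonneg_left h6 (le_trans (abs_nonneg _) h5)

/-- A bound for the potential. -/
noncomputable def Bd : ℝ := ∑ i, |D.b i|

theorem le_Bd (i : L) : |D.b i| ≤ D.Bd :=
  Finset.single_le_sum (f := fun i => |D.b i|) (fun _ _ => abs_nonneg _) (Finset.mem_univ i)

theorem summable_pot (f v : E2 V) : Summable fun x => D.b (D.lab x) * f x * v x := by
  have h3 := ((summable_sq f).add (summable_sq v)).mul_left D.Bd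
  refine Summable.of_norm_bounded h3 ?_
  intro x
  rw [Real.norm_eq_abs, abs_mul, abs_mul, mul_assoc]
  have h5 := D.le_Bd (D.lab x)
  have h6 : |f x| * |v x| ≤ f x ^ 2 + v x ^ 2 := by
    have e1 := sq_abs (f x)
    have e2 := sq_abs (v x)
    nlinarith [sq_nonneg (|f x| - |v x|), abs_nonneg (f x), abs_nonneg (v x)]
  calc _ ≤ D.Bd * (|f x| * |v x|) := mul_le_mul_of_nonneg_right h5 (by positivity)
    _ ≤ _ := mul_le_mul_of_nonneg_left h6 (le_trans (abs_nonneg _) h5)

theorem tsum_op (f v : E2 V) :
    ∑' x, D.op f x * v x = ∑' x, D.b (D.lab x) * f x * v x + ∑' p : V × L, D.F f v p := by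
  have h1 := D.summable_F f v
  rw [h1.tsum_prod]
  rw [← Summable.tsum_add (D.summable_pot f v) h1.prod]
  apply tsum_congr
  intro x
  rw [tsum_fintype]
  unfold op F
  rw [add_mul, Finset.sum_mul]

/-- The operator is symmetric. -/
theorem symm_op (f v : E2 V) : ∑' x, D.op f x * v x = ∑' x, D.op v x * f x := by
  rw [tsum_op, tsum_op]
  congr 1
  · apply tsum_congr
    intro x
    ring
  · rw [← D.revE.tsum_eq (D.F f v)]
    apply tsum_congr
    intro p
    exact D.F_rev f v p

open Classical in
/-- Restriction of a function to a set. -/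
noncomputable def res (S : Set V) (u : E2 V) : E2 V :=
  mk2 (fun x => if x ∈ S then u x else 0) (by
    refine Summable.of_nonneg_of_le (fun x => sq_nonneg _) (fun x => ?_) (summable_sq u)
    by_cases h : x ∈ S
    · rw [if_pos h]
    · rw [if_neg h]
      nlinarith [sq_nonneg (u x)])

open Classical in
theorem res_apply (S : Set V) (u : E2 V) (x : V) :
    res S u x = if x ∈ S then u x else 0 := rfl

open Classical in
theorem op_res (S : Set V) {u : E2 V} (hu : u ∈ D.N) (x : V) :
    D.op (res S u) x = ∑ l, D.w (D.lab x) l * u (D.nb x l) *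
      ((if D.nb x l ∈ S then 1 else 0) - (if x ∈ S then 1 else 0)) := by
  have h := D.mem_N.1 hu x
  have h2 : D.op (res S u) x = D.op (res S u) x - (if x ∈ S then 1 else 0) * D.op u x := by
    rw [h]; ring
  rw [h2]
  unfold op
  rw [mul_add, Finset.mul_sum]
  have e : D.b (D.lab x) * (res S u) x = (if x ∈ S then 1 else 0) * (D.b (D.lab x) * u x) := by
    rw [res_apply]
    by_cases hx : x ∈ S <;> simp [hx]
  rw [e]
  have e2 : ∀ l, D.w (D.lab x) l * u (D.nb x l) *
      ((if D.nb x l ∈ S then (1 : ℝ) else 0) - (if x ∈ S then 1 else 0)) =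
      D.w (D.lab x) l * (res S u) (D.nb x l) -
        (if x ∈ S then 1 else 0) * (D.w (D.lab x) l * u (D.nb x l)) := by
    intro l
    rw [res_apply]
    by_cases hx : D.nb x l ∈ S <;> by_cases hx2 : x ∈ S <;> simp [hx, hx2]
  rw [Finset.sum_congr rfl (fun l _ => e2 l), Finset.sum_sub_distrib]
  ring

open Classical in
theorem op_side {x y : V} (hxy : D.T.Adj x y) {u : E2 V} (hu : u ∈ D.N) (t : V) :
    D.op (res (side D.T x y) u) t =
      (if t = y then D.w (D.lab y) (D.lab x) * u x else 0) -
      (if t = x then D.w (D.lab x) (D.lab y) * u y else 0) := by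
  rw [D.op_res _ hu]
  have hx : x ∈ side D.T x y := by
    show D.T.dist x x < D.T.dist x y
    rw [SimpleGraph.dist_self]
    exact D.tree.connected.pos_dist_of_ne hxy.ne
  have hy : y ∉ side D.T x y := by
    intro h
    have h' : D.T.dist y x < D.T.dist y y := h
    rw [SimpleGraph.dist_self] at h'
    omega
  have hcol := D.adj_col _ _ hxy
  by_cases h1 : t = y
  · subst h1
    have hne : t ≠ x := hxy.ne'
    rw [if_pos rfl, if_neg hne, sub_zero, Finset.sum_eq_single (D.lab x)]
    · rw [D.nb_eq _ _ hxy.symm, if_pos hx, if_neg hy]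
      ring
    · intro l _ hl
      by_cases hc : D.col (D.lab t) = D.col l
      · rw [D.w_zero _ _ hc]; ring
      · have ha := D.nb_adj t l hc
        have hn : D.nb t l ∉ side D.T x t := by
          intro hm
          have := (side_cut D.tree hxy ha.symm hm hy).1
          apply hl
          rw [← this, D.nb_lab t l hc]
        rw [if_neg hn, if_neg hy]
        ring
    · intro h; exact absurd (Finset.mem_univ _) h
  · rw [if_neg h1]
    by_cases h2 : t = x
    · subst h2
      rw [if_pos rfl, zero_sub, Finset.sum_eq_single (D.lab y)]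
      · rw [D.nb_eq _ _ hxy, if_pos hx, if_neg hy]
        ring
      · intro l _ hl
        by_cases hc : D.col (D.lab t) = D.col l
        · rw [D.w_zero _ _ hc]; ring
        · have ha := D.nb_adj t l hc
          have hn : D.nb t l ∈ side D.T t y := by
            by_contra hm
            have := (side_cut D.tree hxy ha hx hm).2
            apply hl
            rw [← this, D.nb_lab t l hc]
          rw [if_pos hn, if_pos hx]
          ring
      · intro h; exact absurd (Finset.mem_univ _) h
    · rw [if_neg h2, sub_zero]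
      apply Finset.sum_eq_zero
      intro l _
      by_cases hc : D.col (D.lab t) = D.col l
      · rw [D.w_zero _ _ hc]; ring
      · have ha := D.nb_adj t l hc
        by_cases ht : t ∈ side D.T x y
        · have hn : D.nb t l ∈ side D.T x y := by
            by_contra hm
            exact h2 (side_cut D.tree hxy ha ht hm).1
          rw [if_pos hn, if_pos ht]
          ring
        · have hn : D.nb t l ∉ side D.T x y := by
            intro hm
            exact h1 (side_cut D.tree hxy ha.symm hm ht).2
          rw [if_neg hn, if_neg ht]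
          ring

/-- Eigenfunctions are proportional on every edge. -/
theorem green {x y : V} (hxy : D.T.Adj x y) {u v : E2 V} (hu : u ∈ D.N) (hv : v ∈ D.N) :
    u x * v y = u y * v x := by
  classical
  have h := D.symm_op (res (side D.T x y) u) v
  have h0 : ∑' t, D.op v t * (res (side D.T x y) u) t = 0 := by
    rw [← tsum_zero (α := ℝ) (β := V)]
    apply tsum_congr
    intro t
    rw [D.mem_N.1 hv t, zero_mul]
  rw [h0] at h
  have h1 : ∀ t, D.op (res (side D.T x y) u) t * v t =
      (if t = y then D.w (D.lab y) (D.lab x) * u x * v y else 0) +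
      (if t = x then -(D.w (D.lab x) (D.lab y) * u y * v x) else 0) := by
    intro t
    rw [D.op_side hxy hu]
    by_cases a1 : t = y
    · subst a1
      have : t ≠ x := hxy.ne'
      simp [this]
    · by_cases a2 : t = x
      · subst a2
        simp [a1]
      · simp [a1, a2]
  rw [tsum_congr h1, Summable.tsum_add, tsum_ite_eq, tsum_ite_eq] at h
  · rw [D.w_symm (D.lab x) (D.lab y)] at h
    have hw := D.w_pos (D.lab y) (D.lab x) (fun e => D.adj_col _ _ hxy e.symm)
    have h2 : D.w (D.lab y) (D.lab x) * (u x * v y - u y * v x) = 0 := by linarith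
    rcases mul_eq_zero.1 h2 with h3 | h3
    · exact absurd h3 hw.ne'
    · linarith
  · exact (hasSum_ite_eq _ _).summable
  · exact (hasSum_ite_eq _ _).summable

/-- Existence of `g_y` when `y` is not in the support but has a neighbour in it. -/
theorem exists_G {x y : V} (hxy : D.T.Adj x y) (hx : D.InF x) (hy : ¬ D.InF y) :
    ∃ g, D.IsG y g ∧ ∀ z, ¬ D.InF z → g z = 0 := by
  classical
  obtain ⟨u, hu, hux⟩ := hx
  have hw := D.w_pos (D.lab y) (D.lab x) (fun e => D.adj_col _ _ hxy e.symm)
  have hc : D.w (D.lab y) (D.lab x) * u x ≠ 0 := mul_ne_zero hw.ne' hux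
  obtain ⟨n, hn, g, hg, hsum⟩ :=
    D.decomp ((D.w (D.lab y) (D.lab x) * u x)⁻¹ • res (side D.T x y) u)
  refine ⟨g, ⟨?_, hg⟩, ?_⟩
  · intro z
    have h1 := congrArg (fun f : E2 V => D.op f z) hsum
    simp only at h1
    rw [D.op_add, D.op_smul, D.op_side hxy hu, D.mem_N.1 hn z, zero_add, D.off hy hu] at h1
    rw [← h1]
    by_cases hz : z = y
    · simp only [hz, if_true]
      by_cases hz2 : y = x
      · exact absurd hz2 hxy.ne'
      · rw [if_neg hz2, sub_zero, inv_mul_cancel₀ hc]
    · simp [hz]
  · intro z hz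
    have h1 := congrArg (fun f : E2 V => f z) hsum
    simp only [lp.coeFn_smul, lp.coeFn_add, Pi.smul_apply, Pi.add_apply, smul_eq_mul] at h1
    rw [res_apply, D.off hz hu, D.off hz hn] at h1
    simp at h1
    exact h1.symm

end Dat

end Pool.Agent.H555RG
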