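import Mathlib
import Pool.Agent.H555RG.Cut

/-!
The three cases: four cycle, one colour, star.
-/

namespace Pool.Agent.H555RG

open scoped ENNReal InnerProductSpace

variable {V L : Type} [Fintype L]

namespace Dat

variable (D : Dat V L)

open Classical in
theorem inner_res (S : Finset V) (g u : E2 V) :
    ⟪g, res (S : Set V) u⟫_ℝ = ∑ x ∈ S, g x * u x := by
  rw [inner_E2, tsum_eq_sum (s := S)]
  · apply Finset.sum_congr rfl
    intro x hx
    rw [res_apply, if_pos (by simpa using hx)]
  · intro x hx
    rw [res_apply, if_neg (by simpa using hx), mul_zero]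

open Classical in
theorem op_res' (K : Set V) {u : E2 V} (hu : u ∈ D.N)
    (hK : ∀ x ∈ K, ∀ l, D.col (D.lab x) ≠ D.col l → D.nb x l ∉ K → ¬ D.InF (D.nb x l)) (z : V) :
    D.op (res K u) z = if z ∈ K then 0 else
      ∑ l, D.w (D.lab z) l * u (D.nb z l) * (if D.nb z l ∈ K then 1 else 0) := by
  rw [D.op_res K hu]
  by_cases hz : z ∈ K
  · simp only [if_pos hz]
    apply Finset.sum_eq_zero
    intro l _
    by_cases hc : D.col (D.lab z) = D.col l
    · rw [D.w_zero _ _ hc]; ring
    · by_cases hn : D.nb z l ∈ K
      · rw [if_pos hn]; ring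
      · rw [D.off (hK z hz l hc hn) hu]; ring
  · simp only [if_neg hz, sub_zero]

open Classical in
/-- One colour: fewer labels of the other colour than labels in the support. -/
theorem one_colour (k : Bool) (hX : ∀ x, D.InF x → D.col (D.lab x) = k)
    (hne : ∃ x, D.InF x) :
    (Finset.univ.filter (fun l => D.col l ≠ k)).card <
      (Finset.univ.filter (fun l => ∃ x, D.lab x = l ∧ D.InF x)).card := by
  obtain ⟨x0, hx0⟩ := hne
  set A := Finset.univ.filter (fun l => D.col l ≠ k) with hA
  set X := Finset.univ.filter (fun l => ∃ x, D.lab x = l ∧ D.InF x) with hXs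
  have hnot : ∀ y, D.col (D.lab y) ≠ k → ¬ D.InF y := fun y hy h => hy (hX y h)
  -- the functions g at the neighbours of an arbitrary support vertex
  have hex : ∀ x, D.InF x → ∀ d ∈ A, ∃ g, D.IsG (D.nb x d) g ∧ ∀ z, ¬ D.InF z → g z = 0 := by
    intro x hx d hd
    have hd' : D.col d ≠ k := (Finset.mem_filter.1 hd).2
    have hc : D.col (D.lab x) ≠ D.col d := by rw [hX x hx]; exact hd'.symm
    refine D.exists_G (D.nb_adj x d hc) hx (hnot _ ?_)
    rw [D.nb_lab x d hc]
    exact hd'
  choose! G hG1 hG2 using hex
  -- tau
  set τ : L → L → ℝ := fun l d => D.w d l * G x0 d (D.nb (D.nb x0 d) l) with hτ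
  have hsum : ∀ d ∈ A, ∑ l ∈ X, τ l d = 1 := by
    intro d hd
    have hd' : D.col d ≠ k := (Finset.mem_filter.1 hd).2
    have hc : D.col (D.lab x0) ≠ D.col d := by rw [hX x0 hx0]; exact hd'.symm
    have hlab := D.nb_lab x0 d hc
    have h1 := IsG.sum D (hG1 x0 hx0 d hd) (hG2 x0 hx0 d hd _ (hnot _ (by rw [hlab]; exact hd')))
    rw [hlab] at h1
    rw [← h1]
    apply Finset.sum_subset (Finset.subset_univ _)
    intro l _ hl
    show D.w d l * G x0 d (D.nb (D.nb x0 d) l) = 0
    by_cases hc2 : D.col d = D.col l
    · rw [D.w_zero _ _ hc2, zero_mul]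
    · rw [hG2 x0 hx0 d hd, mul_zero]
      intro hin
      apply hl
      rw [hXs, Finset.mem_filter]
      refine ⟨Finset.mem_univ _, _, ?_, hin⟩
      exact D.nb_lab _ _ (by rw [hlab]; exact hc2)
  have hlt : ∀ l ∈ X, ∑ d ∈ A, τ l d < 1 := by
    intro l hl
    obtain ⟨_, x, hxl, hx⟩ := Finset.mem_filter.1 hl
    obtain ⟨u, hu, hux⟩ := id hx
    have hcol : ∀ d ∈ A, D.col (D.lab x) ≠ D.col d := by
      intro d hd
      rw [hX x hx]
      exact ((Finset.mem_filter.1 hd).2).symm
    have h := D.trace_lt A (res ({x} : Finset V) u) (fun d => D.nb x d) (fun d => G x d)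
      (fun d => D.w (D.lab x) d * u x) (fun d => D.w (D.lab x) d * G x d x)
      (fun d hd => hG1 x hx d hd) ?_ ?_ ?_
    · refine lt_of_eq_of_lt ?_ h
      apply Finset.sum_congr rfl
      intro d hd
      have hc0 : D.col (D.lab x0) ≠ D.col d := by
        rw [hX x0 hx0]; exact ((Finset.mem_filter.1 hd).2).symm
      have h2 := IsG.inv D (hG1 x0 hx0 d hd) (hG1 x hx d hd)
        (by rw [D.nb_lab _ _ hc0, D.nb_lab _ _ (hcol d hd)]) l
        (by rw [D.nb_lab _ _ hc0, ← hxl]; exact (hcol d hd).symm)
      simp only [hτ]
      rw [h2, ← hxl, D.nb_eq _ _ (D.nb_adj x d (hcol d hd)).symm, D.w_symm d]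
    · intro z
      rw [D.op_res' _ hu]
      · by_cases hz : z = x
        · subst hz
          rw [if_pos (by simp)]
          symm
          apply Finset.sum_eq_zero
          intro d hd
          rw [(hG1 z hx d hd).1, if_neg, mul_zero]
          exact (D.nb_adj z d (hcol d hd)).ne
        · rw [if_neg (by simpa using hz)]
          by_cases hadj : D.T.Adj x z
          · have hcz := D.adj_col _ _ hadj
            have hzA : D.lab z ∈ A := by
              rw [hA, Finset.mem_filter]
              refine ⟨Finset.mem_univ _, ?_⟩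
              rw [hX x hx] at hcz
              exact hcz.symm
            rw [Finset.sum_eq_single (D.lab x), Finset.sum_eq_single (D.lab z)]
            · rw [(hG1 x hx _ hzA).1, D.nb_eq _ _ hadj.symm, D.nb_eq _ _ hadj, if_pos rfl,
                if_pos (by simp), D.w_symm]
            · intro d hd hdz
              rw [(hG1 x hx d hd).1, if_neg, mul_zero]
              intro he
              apply hdz
              rw [he, D.nb_lab _ _ (hcol d hd)]
            · intro h; exact absurd hzA h
            · intro l' _ hl'
              by_cases hc : D.col (D.lab z) = D.col l'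
              · rw [D.w_zero _ _ hc]; ring
              · rw [if_neg, mul_zero]
                intro he
                have he' : D.nb z l' = x := by simpa using he
                apply hl'
                rw [← he', D.nb_lab _ _ hc]
            · intro h; exact absurd (Finset.mem_univ _) h
          · trans (0 : ℝ)
            · apply Finset.sum_eq_zero
              intro l' _
              by_cases hc : D.col (D.lab z) = D.col l'
              · rw [D.w_zero _ _ hc]; ring
              · rw [if_neg, mul_zero]
                intro he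
                have he' : D.nb z l' = x := by simpa using he
                exact hadj (he' ▸ (D.nb_adj z l' hc).symm)
            symm
            apply Finset.sum_eq_zero
            intro d hd
            rw [(hG1 x hx d hd).1, if_neg, mul_zero]
            intro he
            exact hadj (he ▸ D.nb_adj x d (hcol d hd))
      · intro x' hx' l' hc _
        have hx'' : x' = x := by simpa using hx'
        subst hx''
        apply hnot
        rw [D.nb_lab _ _ hc, ← hX x' hx]
        exact fun e => hc e.symm
    · intro d hd
      rw [inner_res]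
      have : ⟪res (({x} : Finset V) : Set V) u, res (({x} : Finset V) : Set V) u⟫_ℝ = u x * u x := by
        rw [inner_res, Finset.sum_singleton, res_apply, if_pos (by simp)]
      rw [this, Finset.sum_singleton]
      ring
    · refine ⟨u, hu, ?_⟩
      rw [inner_res, Finset.sum_singleton]
      exact mul_ne_zero hux hux
  have hXne : X.Nonempty := ⟨D.lab x0, by
    rw [hXs, Finset.mem_filter]
    exact ⟨Finset.mem_univ _, x0, rfl, hx0⟩⟩
  have h1 : ((A.card : ℕ) : ℝ) = ∑ d ∈ A, ∑ l ∈ X, τ l d := by
    rw [Finset.sum_congr rfl hsum]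
    simp
  have h2 : ∑ l ∈ X, ∑ d ∈ A, τ l d < ∑ _l ∈ X, (1 : ℝ) :=
    Finset.sum_lt_sum_of_nonempty hXne hlt
  rw [Finset.sum_comm, ← h1] at h2
  simp only [Finset.sum_const, nsmul_eq_mul, mul_one] at h2
  exact_mod_cast h2

end Dat

end Pool.Agent.H555RG
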