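import Mathlib
import Pool.Agent.H555RG.Cut

/-!
The support contains no four cycle.
-/

namespace Pool.Agent.H555RG

open scoped ENNReal InnerProductSpace

variable {V L : Type} [Fintype L]

namespace Dat

variable (D : Dat V L)

/-- Reproducing kernel vectors of the eigenspace. -/
theorem exists_ker (x : V) : ∃ k ∈ D.N, ∀ v ∈ D.N, ⟪k, v⟫_ℝ = v x := by
  obtain ⟨n, hn, g, hg, hsum⟩ := D.decomp (dl x)
  refine ⟨n, hn, ?_⟩
  intro v hv
  have h1 : ⟪dl x, v⟫_ℝ = v x := inner_dl x v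
  rw [hsum, inner_add_left] at h1
  have h2 : ⟪g, v⟫_ℝ = 0 := by
    rw [real_inner_comm]
    exact Submodule.inner_right_of_mem_orthogonal hv hg
  rw [h2, add_zero] at h1
  exact h1

/-- The kernel vector at `x`. -/
noncomputable def kv (x : V) : E2 V := (D.exists_ker x).choose

theorem kv_mem (x : V) : D.kv x ∈ D.N := (D.exists_ker x).choose_spec.1

theorem kv_inner (x : V) {v : E2 V} (hv : v ∈ D.N) : ⟪D.kv x, v⟫_ℝ = v x :=
  (D.exists_ker x).choose_spec.2 v hv

theorem kv_symm (x y : V) : D.kv x y = D.kv y x := by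
  rw [← D.kv_inner y (D.kv_mem x), ← D.kv_inner x (D.kv_mem y), real_inner_comm]

theorem kv_pos {x : V} (hx : D.InF x) : 0 < D.kv x x := by
  obtain ⟨u, hu, hux⟩ := hx
  rw [← D.kv_inner x (D.kv_mem x)]
  apply real_inner_self_pos.2
  intro h
  apply hux
  rw [← D.kv_inner x hu, h, inner_zero_left]

theorem kv_unique {x : V} {k : E2 V} (hk : k ∈ D.N) (h : ∀ v ∈ D.N, ⟪k, v⟫_ℝ = v x) :
    k = D.kv x := by
  have h1 : k - D.kv x ∈ D.N := Submodule.sub_mem _ hk (D.kv_mem x)
  have h2 : ⟪k - D.kv x, k - D.kv x⟫_ℝ = 0 := by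
    rw [inner_sub_left, h _ h1, D.kv_inner x h1, sub_self]
  exact sub_eq_zero.1 (inner_self_eq_zero.1 h2)

theorem kv_lab {x y : V} (h : D.lab x = D.lab y) : D.kv x x = D.kv y y := by
  obtain ⟨s, s1, s2, s3⟩ := D.exists_deck h
  obtain ⟨t1, t2⟩ := D.symm_deck s2 s3
  have : cmp s (D.kv y) = D.kv x := by
    apply D.kv_unique (D.cmp_mem s2 s3 (D.kv_mem y))
    intro v hv
    rw [inner_cmp, D.kv_inner y (D.cmp_mem t1 t2 hv), cmp_apply, ← s1, s.symm_apply_apply]
  rw [← this, cmp_apply, s1]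

/-- Adjacent vertices of the support: the kernel has rank one. -/
theorem kv_adj {x y : V} (h : D.T.Adj x y) : D.kv x y ^ 2 = D.kv x x * D.kv y y := by
  have := D.green h (D.kv_mem x) (D.kv_mem y)
  rw [D.kv_symm y x] at this
  rw [this]
  ring

/-- A path in the tree whose labels lie in the support and repeat cannot be infinite. -/
theorem no_line (c : ℕ → L) (hc1 : ∀ n, D.col (c n) ≠ D.col (c (n + 1)))
    (hc2 : ∀ n, c n ≠ c (n + 2)) (hc4 : ∀ n, c (4 * n) = c 0)
    (hF : ∀ n x, D.lab x = c n → D.InF x) (x0 : V) (h0 : D.lab x0 = c 0) : False := by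
  let xs : ℕ → V := fun n => Nat.rec x0 (fun m x => D.nb x (c (m + 1))) n
  have hx0 : xs 0 = x0 := rfl
  have hxs : ∀ n, xs (n + 1) = D.nb (xs n) (c (n + 1)) := fun n => rfl
  have hlab : ∀ n, D.lab (xs n) = c n := by
    intro n
    induction n with
    | zero => exact h0
    | succ n ih =>
      rw [hxs]
      apply D.nb_lab
      rw [ih]
      exact hc1 n
  have hadj : ∀ n, D.T.Adj (xs n) (xs (n + 1)) := by
    intro n
    rw [hxs]
    apply D.nb_adj
    rw [hlab n]
    exact hc1 n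
  have hdist : ∀ n, D.T.dist x0 (xs n) = n ∧ D.T.dist x0 (xs (n + 1)) = n + 1 := by
    intro n
    induction n with
    | zero =>
      refine ⟨?_, ?_⟩
      · rw [hx0, SimpleGraph.dist_self]
      · exact SimpleGraph.dist_eq_one_iff_adj.2 (hadj 0)
    | succ n ih =>
      refine ⟨ih.2, ?_⟩
      rcases D.tree.dist_eq_dist_add_one_of_adj x0 (hadj (n + 1)) with h | h
      · exfalso
        have h3 : xs n = xs (n + 1 + 1) := by
          apply closer_unique D.tree x0 (xs (n + 1)) _ _ (hadj n) (hadj (n + 1)).symm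
          · rw [ih.1, ih.2]
          · exact h
        have h4 := congrArg D.lab h3
        exact hc2 n ((hlab n).symm.trans (h4.trans (hlab (n + 1 + 1))))
      · rw [h, ih.2]
  have hinj : Function.Injective xs := by
    intro a b hab
    have h1 := (hdist a).1
    have h2 := (hdist b).1
    rw [hab, h2] at h1
    exact h1.symm
  have hk : ∀ n, D.kv x0 (xs n) ^ 2 = D.kv x0 x0 * D.kv (xs n) (xs n) := by
    intro n
    induction n with
    | zero => rw [hx0]; ring
    | succ n ih =>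
      have hp := D.kv_pos (hF n (xs n) (hlab n))
      have e1 := D.green (hadj n) (D.kv_mem x0) (D.kv_mem (xs n))
      have e2 := D.kv_adj (hadj n)
      have e3 : (D.kv x0 (xs (n + 1)) * D.kv (xs n) (xs n)) ^ 2 =
          (D.kv x0 (xs n)) ^ 2 * (D.kv (xs n) (xs (n + 1))) ^ 2 := by
        rw [← e1]; ring
      rw [ih, e2] at e3
      have e4 : (D.kv (xs n) (xs n)) ^ 2 *
          (D.kv x0 (xs (n + 1)) ^ 2 - D.kv x0 x0 * D.kv (xs (n + 1)) (xs (n + 1))) = 0 := by
        linarith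
      rcases mul_eq_zero.1 e4 with h | h
      · exact absurd h (pow_pos hp 2).ne'
      · linarith
  have hconst : ∀ n, D.kv x0 (xs (4 * n)) ^ 2 = D.kv x0 x0 ^ 2 := by
    intro n
    rw [hk, D.kv_lab (x := xs (4 * n)) (y := x0) (by rw [hlab, hc4, h0])]
    ring
  have hsum := (summable_sq (D.kv x0)).comp_injective
    (show Function.Injective (fun n : ℕ => xs (4 * n)) from fun a b h => by
      have := hinj h
      omega)
  have hsum2 : Summable (fun _ : ℕ => D.kv x0 x0 ^ 2) := by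
    refine hsum.congr ?_
    intro n
    exact hconst n
  rw [summable_const_iff] at hsum2
  have hp := D.kv_pos (hF 0 x0 h0)
  exact (pow_pos hp 2).ne' hsum2

/-- No four cycle of labels in the support. -/
theorem no_cycle {i i' j j' : L} (h1 : D.col i ≠ D.col j) (h2 : D.col i' = D.col i)
    (h3 : D.col j' = D.col j) (hi : i ≠ i') (hj : j ≠ j')
    (hF : ∀ x, D.lab x = i ∨ D.lab x = i' ∨ D.lab x = j ∨ D.lab x = j' → D.InF x)
    (x0 : V) (h0 : D.lab x0 = i) : False := by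
  let c : ℕ → L := fun n => if n % 4 = 0 then i else if n % 4 = 1 then j else
    if n % 4 = 2 then i' else j'
  have hc : ∀ n, (n % 4 = 0 ∧ c n = i) ∨ (n % 4 = 1 ∧ c n = j) ∨ (n % 4 = 2 ∧ c n = i') ∨
      (n % 4 = 3 ∧ c n = j') := by
    intro n
    have : n % 4 = 0 ∨ n % 4 = 1 ∨ n % 4 = 2 ∨ n % 4 = 3 := by omega
    rcases this with h | h | h | h <;> simp [c, h]
  apply D.no_line c _ _ _ _ x0
  · rw [h0]; simp [c]
  · intro n
    rcases hc n with ⟨a, b⟩ | ⟨a, b⟩ | ⟨a, b⟩ | ⟨a, b⟩ <;>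
    rcases hc (n + 1) with ⟨a', b'⟩ | ⟨a', b'⟩ | ⟨a', b'⟩ | ⟨a', b'⟩ <;>
    first
      | (exfalso; omega)
      | (rw [b, b']; first | exact h1 | (rw [h2]; exact h1.symm) | (rw [h2, h3]; exact h1) |
          (rw [h3]; exact h1.symm))
  · intro n
    rcases hc n with ⟨a, b⟩ | ⟨a, b⟩ | ⟨a, b⟩ | ⟨a, b⟩ <;>
    rcases hc (n + 2) with ⟨a', b'⟩ | ⟨a', b'⟩ | ⟨a', b'⟩ | ⟨a', b'⟩ <;>
    first
      | (exfalso; omega)
      | (rw [b, b']; first | exact hi | exact hj | exact hi.symm | exact hj.symm)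
  · intro n
    rcases hc (4 * n) with ⟨a, b⟩ | ⟨a, b⟩ | ⟨a, b⟩ | ⟨a, b⟩ <;>
    first
      | (exfalso; omega)
      | (rw [b]; simp [c])
  · intro n x hx
    apply hF
    rcases hc n with ⟨a, b⟩ | ⟨a, b⟩ | ⟨a, b⟩ | ⟨a, b⟩ <;> rw [b] at hx <;> tauto

end Dat

end Pool.Agent.H555RG
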