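import Mathlib
import Pool.Agent.H555RG.Cases

/-!
The star case.
-/

namespace Pool.Agent.H555RG

open scoped ENNReal InnerProductSpace

variable {V L : Type} [Fintype L]

namespace Dat

variable (D : Dat V L)

theorem col_eq_of_ne {a b c : L} (h1 : D.col a ≠ D.col b) (h2 : D.col c ≠ D.col b) :
    D.col a = D.col c := by
  revert h1 h2
  cases D.col a <;> cases D.col b <;> cases D.col c <;> simp

/-- The two neighbours with the same label of a common vertex agree. -/
theorem adj_eq {x y y' : V} (h : D.T.Adj x y) (h' : D.T.Adj x y') (e : D.lab y = D.lab y') :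
    y = y' := by
  rw [← D.nb_eq _ _ h, ← D.nb_eq _ _ h', e]

open Classical in
/-- A star in the support: impossible when there is another label of the colour of the centre. -/
theorem no_star {z : V} (hz : D.InF z)
    (h1 : ∀ x, D.col (D.lab x) ≠ D.col (D.lab z) → D.InF x)
    (h2 : ∀ x, D.col (D.lab x) = D.col (D.lab z) → D.lab x ≠ D.lab z → ¬ D.InF x)
    (h3 : ∃ d, D.col d = D.col (D.lab z) ∧ d ≠ D.lab z)
    (h4 : ∃ l, D.col l ≠ D.col (D.lab z)) : False := by
  obtain ⟨u, hu, huz⟩ := id hz
  obtain ⟨l0, hl0⟩ := h4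
  set c := D.lab z with hc
  -- leaves
  have hadj : ∀ l, D.col l ≠ D.col c → D.T.Adj z (D.nb z l) := fun l hl => D.nb_adj z l hl.symm
  have hlab : ∀ l, D.col l ≠ D.col c → D.lab (D.nb z l) = l := fun l hl => D.nb_lab z l hl.symm
  have hleafF : ∀ l, D.col l ≠ D.col c → D.InF (D.nb z l) := fun l hl =>
    h1 _ (by rw [hlab l hl]; exact hl)
  have hux : ∀ l, D.col l ≠ D.col c → u (D.nb z l) ≠ 0 := by
    intro l hl h0
    obtain ⟨v, hv, hvx⟩ := hleafF l hl
    have := D.green (hadj l hl) hu hv
    rw [h0, zero_mul] at this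
    exact mul_ne_zero huz hvx this
  set A := Finset.univ.filter (fun l => D.col l ≠ D.col c) with hA
  set Dd := Finset.univ.filter (fun d => D.col d = D.col c ∧ d ≠ c) with hDd
  have memA : ∀ l, l ∈ A ↔ D.col l ≠ D.col c := fun l => by simp [hA]
  have memD : ∀ d, d ∈ Dd ↔ D.col d = D.col c ∧ d ≠ c := fun d => by simp [hDd]
  -- second neighbours
  have hcd : ∀ l ∈ A, ∀ d ∈ Dd, D.col (D.lab (D.nb z l)) ≠ D.col d := by
    intro l hl d hd
    rw [memA] at hl
    rw [memD] at hd
    rw [hlab l hl, hd.1]
    exact hl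
  have hadj2 : ∀ l ∈ A, ∀ d ∈ Dd, D.T.Adj (D.nb z l) (D.nb (D.nb z l) d) :=
    fun l hl d hd => D.nb_adj _ _ (hcd l hl d hd)
  have hlab2 : ∀ l ∈ A, ∀ d ∈ Dd, D.lab (D.nb (D.nb z l) d) = d :=
    fun l hl d hd => D.nb_lab _ _ (hcd l hl d hd)
  have hnot : ∀ l ∈ A, ∀ d ∈ Dd, ¬ D.InF (D.nb (D.nb z l) d) := by
    intro l hl d hd
    have hd' := (memD d).1 hd
    apply h2
    · rw [hlab2 l hl d hd]; exact hd'.1
    · rw [hlab2 l hl d hd]; exact hd'.2
  have hex : ∀ l ∈ A, ∀ d ∈ Dd, ∃ g, D.IsG (D.nb (D.nb z l) d) g ∧ ∀ x, ¬ D.InF x → g x = 0 :=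
    fun l hl d hd => D.exists_G (hadj2 l hl d hd) (hleafF l ((memA l).1 hl)) (hnot l hl d hd)
  choose! G hG1 hG2 using hex
  set K : Finset V := insert z (A.image (fun l => D.nb z l)) with hK
  have memK : ∀ x, x ∈ K ↔ x = z ∨ ∃ l ∈ A, D.nb z l = x := by
    intro x
    simp [hK]
  have yK : ∀ l ∈ A, ∀ d ∈ Dd, D.nb (D.nb z l) d ∉ K := by
    intro l hl d hd h
    have hd' := (memD d).1 hd
    rcases (memK _).1 h with h5 | ⟨l', hl', h5⟩
    · apply hd'.2
      rw [← hlab2 l hl d hd, h5]
    · have h6 := hlab l' ((memA l').1 hl')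
      rw [h5, hlab2 l hl d hd] at h6
      exact (memA l').1 hl' (h6 ▸ hd'.1)
  have hbd : ∀ x ∈ (K : Set V), ∀ l, D.col (D.lab x) ≠ D.col l → D.nb x l ∉ (K : Set V) →
      ¬ D.InF (D.nb x l) := by
    intro x hx l hxl hn
    rcases (memK x).1 hx with h5 | ⟨l', hl', h5⟩
    · exfalso
      subst h5
      apply hn
      exact (memK _).2 (Or.inr ⟨l, (memA l).2 hxl.symm, rfl⟩)
    · subst h5
      have hl'' := (memA l').1 hl'
      rw [hlab l' hl''] at hxl
      have hcl : D.col l = D.col c := D.col_eq_of_ne hxl.symm hl''.symm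
      have hlc : l ≠ c := by
        intro e
        apply hn
        rw [e]
        have : D.nb (D.nb z l') c = z := D.nb_eq _ _ (hadj l' hl'').symm
        rw [this]
        exact (memK _).2 (Or.inl rfl)
      exact hnot l' hl' l ((memD l).2 ⟨hcl, hlc⟩)
  -- proportionality on the star
  have hprop : ∀ l ∈ A, ∀ d ∈ Dd, ∀ v ∈ K, G l d v * u z = G l d z * u v := by
    intro l hl d hd v hv
    rcases (memK v).1 hv with h5 | ⟨m, hm, h5⟩
    · rw [h5]
    · have hm' := (memA m).1 hm
      have hop1 : ∀ f : E2 V, (∀ x, ¬ D.InF x → f x = 0) →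
          D.op f v = D.b m * f v + D.w m c * f z := by
        intro f hf
        unfold op
        have hlv : D.lab v = m := by rw [← h5]; exact hlab m hm'
        rw [hlv]
        congr 1
        rw [Finset.sum_eq_single c]
        · rw [← h5, D.nb_eq _ _ (hadj m hm').symm]
        · intro l' _ hl'
          by_cases hcc : D.col m = D.col l'
          · rw [D.w_zero _ _ hcc, zero_mul]
          · rw [hf, mul_zero]
            have hcl : D.col l' = D.col c := D.col_eq_of_ne (fun e => hcc e.symm) hm'.symm
            rw [← h5]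
            exact hnot m hm l' ((memD l').2 ⟨hcl, hl'⟩)
        · intro h; exact absurd (Finset.mem_univ _) h
      have e1 := hop1 u (fun x hx => D.off hx hu)
      rw [D.mem_N.1 hu v] at e1
      have e2 := hop1 (G l d) (hG2 l hl d hd)
      rw [(hG1 l hl d hd).1 v, if_neg (by
        intro e
        apply yK l hl d hd
        rw [← e]
        exact hv)] at e2
      have hw : 0 < D.w m c := D.w_pos m c hm'
      have huv : u v ≠ 0 := by rw [← h5]; exact hux m hm'
      have hb : D.b m ≠ 0 := by
        intro hb
        rw [hb, zero_mul, zero_add] at e1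
        exact mul_ne_zero hw.ne' huz e1.symm
      have e3 : D.b m * (G l d v * u z - G l d z * u v) = 0 := by
        have a1 : D.b m * u v = -(D.w m c * u z) := by linarith
        have a2 : D.b m * G l d v = -(D.w m c * G l d z) := by linarith
        calc D.b m * (G l d v * u z - G l d z * u v)
            = (D.b m * G l d v) * u z - G l d z * (D.b m * u v) := by ring
          _ = 0 := by rw [a1, a2]; ring
      rcases mul_eq_zero.1 e3 with h6 | h6
      · exact absurd h6 hb
      · linarith
  -- the trace inequality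
  have htr := D.trace_lt (A ×ˢ Dd) (res (K : Set V) u) (fun p => D.nb (D.nb z p.1) p.2)
    (fun p => G p.1 p.2) (fun p => D.w p.1 p.2 * u (D.nb z p.1))
    (fun p => D.w p.1 p.2 * G p.1 p.2 (D.nb z p.1)) ?_ ?_ ?_ ?_
  · -- contradiction
    rw [Finset.sum_product_right] at htr
    have hone : ∀ d ∈ Dd, ∑ l ∈ A, D.w l d * G l d (D.nb z l) = 1 := by
      intro d hd
      have hl0A : l0 ∈ A := (memA l0).2 hl0
      have hs := IsG.sum D (hG1 l0 hl0A d hd) (hG2 l0 hl0A d hd _ (hnot l0 hl0A d hd))
      rw [hlab2 l0 hl0A d hd] at hs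
      rw [← hs]
      have hd' := (memD d).1 hd
      rw [← Finset.sum_subset (Finset.subset_univ A)]
      · apply Finset.sum_congr rfl
        intro l hl
        have hl' := (memA l).1 hl
        have hi := IsG.inv D (hG1 l hl d hd) (hG1 l0 hl0A d hd)
          (by rw [hlab2 l hl d hd, hlab2 l0 hl0A d hd]) l
          (by rw [hlab2 l hl d hd, hd'.1]; exact hl'.symm)
        have hback : D.nb (D.nb (D.nb z l) d) l = D.nb z l := by
          have := D.nb_eq _ _ (hadj2 l hl d hd).symm
          rw [hlab l hl'] at this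
          exact this
        rw [hback] at hi
        rw [hi, D.w_symm l d]
      · intro l _ hl
        have hcl : D.col l = D.col c := by
          by_contra h
          exact hl ((memA l).2 h)
        rw [D.w_zero _ _ (hd'.1.trans hcl.symm), zero_mul]
    simp only at htr
    rw [Finset.sum_congr rfl hone] at htr
    simp only [Finset.sum_const, nsmul_eq_mul, mul_one] at htr
    obtain ⟨d, hd1, hd2⟩ := h3
    have : 0 < Dd.card := Finset.card_pos.2 ⟨d, (memD d).2 ⟨hd1, hd2⟩⟩
    have h7 : (Dd.card : ℝ) < 1 := htr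
    have h8 : Dd.card < 1 := by exact_mod_cast h7
    omega
  · intro p hp
    obtain ⟨hp1, hp2⟩ := Finset.mem_product.1 hp
    exact hG1 p.1 hp1 p.2 hp2
  · intro t
    rw [D.op_res' _ hu hbd]
    have hR : ∑ j ∈ A ×ˢ Dd, D.w j.1 j.2 * u (D.nb z j.1) * D.op (G j.1 j.2) t =
        ∑ l ∈ A, ∑ d ∈ Dd, D.w l d * u (D.nb z l) *
          (if t = D.nb (D.nb z l) d then 1 else 0) := by
      rw [Finset.sum_product]
      apply Finset.sum_congr rfl
      intro l hl
      apply Finset.sum_congr rfl
      intro d hd
      simp only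
      rw [(hG1 l hl d hd).1]
    rw [hR]
    by_cases ht : t ∈ (K : Set V)
    · rw [if_pos ht]
      symm
      apply Finset.sum_eq_zero
      intro l hl
      apply Finset.sum_eq_zero
      intro d hd
      rw [if_neg, mul_zero]
      intro e
      apply yK l hl d hd
      rw [← e]
      exact ht
    · rw [if_neg ht]
      rw [← Finset.sum_subset (Finset.subset_univ A)]
      · apply Finset.sum_congr rfl
        intro l hl
        have hl' := (memA l).1 hl
        by_cases hcase : D.col (D.lab t) ≠ D.col l ∧ D.nb t l ∈ (K : Set V)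
        · obtain ⟨hc1, hc2⟩ := hcase
          have hadjt := D.nb_adj t l hc1
          have hlabt := D.nb_lab t l hc1
          have heq : D.nb t l = D.nb z l := by
            rcases (memK _).1 hc2 with h5 | ⟨m, hm, h5⟩
            · exfalso
              apply hl'
              rw [← hlabt, h5]
            · have h6 := hlab m ((memA m).1 hm)
              rw [h5, hlabt] at h6
              rw [← h5, h6]
          have htl : D.T.Adj (D.nb z l) t := by rw [← heq]; exact hadjt.symm
          have htc : D.lab t ≠ c := by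
            intro e
            apply ht
            have : t = z := D.adj_eq htl (hadj l hl').symm e
            rw [this]
            exact (memK _).2 (Or.inl rfl)
          have htD : D.lab t ∈ Dd := (memD _).2 ⟨D.col_eq_of_ne hc1 hl'.symm, htc⟩
          rw [Finset.sum_eq_single (D.lab t)]
          · rw [if_pos hc2, D.nb_eq _ _ htl, if_pos rfl, heq, D.w_symm]
          · intro d hd hdt
            rw [if_neg, mul_zero]
            intro e
            apply hdt
            rw [e, hlab2 l hl d hd]
          · intro h; exact absurd htD h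
        · trans (0 : ℝ)
          · by_cases hc1 : D.col (D.lab t) = D.col l
            · rw [D.w_zero _ _ hc1]; ring
            · rw [if_neg (fun h => hcase ⟨hc1, h⟩), mul_zero]
          symm
          apply Finset.sum_eq_zero
          intro d hd
          rw [if_neg, mul_zero]
          intro e
          apply hcase
          have h5 := hadj2 l hl d hd
          rw [← e] at h5
          have h6 := D.adj_col _ _ h5
          rw [hlab l hl'] at h6
          refine ⟨fun h => h6 h.symm, ?_⟩
          have h7 := D.nb_eq _ _ h5.symm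
          rw [hlab l hl'] at h7
          rw [h7]
          exact (memK _).2 (Or.inr ⟨l, hl, rfl⟩)
      · intro l _ hl
        have hcl : D.col l = D.col c := by
          by_contra h
          exact hl ((memA l).2 h)
        by_cases hc1 : D.col (D.lab t) = D.col l
        · rw [D.w_zero _ _ hc1]; ring
        · rw [if_neg, mul_zero]
          intro h5
          have hadjt := D.nb_adj t l hc1
          have hlabt := D.nb_lab t l hc1
          rcases (memK _).1 h5 with h6 | ⟨m, hm, h6⟩
          · apply ht
            rw [h6] at hadjt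
            refine (memK _).2 (Or.inr ⟨D.lab t, (memA _).2 ?_, D.nb_eq _ _ hadjt.symm⟩)
            rw [← hcl]
            exact hc1
          · have h7 := hlab m ((memA m).1 hm)
            rw [h6, hlabt] at h7
            exact (memA m).1 hm (h7 ▸ hcl)
  · intro p hp
    obtain ⟨hp1, hp2⟩ := Finset.mem_product.1 hp
    simp only
    rw [inner_res]
    have e2 : ⟪res (K : Set V) u, res (K : Set V) u⟫_ℝ = ∑ x ∈ K, u x * u x := by
      rw [inner_res]
      apply Finset.sum_congr rfl
      intro x hx
      rw [res_apply, if_pos (by simpa using hx)]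
    rw [e2]
    have hpK : D.nb z p.1 ∈ K := (memK _).2 (Or.inr ⟨p.1, hp1, rfl⟩)
    have e3 : ∑ x ∈ K, G p.1 p.2 x * u x = (G p.1 p.2 z / u z) * ∑ x ∈ K, u x * u x := by
      rw [Finset.mul_sum]
      apply Finset.sum_congr rfl
      intro x hx
      have := hprop p.1 hp1 p.2 hp2 x hx
      have h9 : G p.1 p.2 x = (G p.1 p.2 z / u z) * u x := by
        rw [div_mul_eq_mul_div, eq_div_iff huz]
        exact this
      rw [h9]
      ring
    have e4 : G p.1 p.2 (D.nb z p.1) = (G p.1 p.2 z / u z) * u (D.nb z p.1) := by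
      have := hprop p.1 hp1 p.2 hp2 _ hpK
      rw [div_mul_eq_mul_div, eq_div_iff huz]
      exact this
    rw [e3, e4]
    ring
  · refine ⟨u, hu, ?_⟩
    rw [inner_res]
    have h5 : 0 < ∑ x ∈ K, u x * u x := by
      apply Finset.sum_pos'
      · intro x _; exact mul_self_nonneg _
      · exact ⟨z, (memK z).2 (Or.inl rfl), mul_self_pos.2 huz⟩
    exact h5.ne'

end Dat

end Pool.Agent.H555RG
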