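import Mathlib
import Pool.Agent.H555RG.Star
import Pool.Agent.H555RG.Cycle

/-!
The support of the eigenspace is one coloured, and has more labels than the other colour.
-/

namespace Pool.Agent.H555RG

open scoped ENNReal InnerProductSpace

variable {V L : Type} [Fintype L]

namespace Dat

variable (D : Dat V L)

/-- If only one label `c` of its colour occurs in the support, contradiction as soon as another
colour occurs. -/
theorem no_single {z y : V} (hz : D.InF z) (hy : D.InF y)
    (hc : ∀ x, D.InF x → D.col (D.lab x) = D.col (D.lab z) → D.lab x = D.lab z)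
    (hyz : D.col (D.lab y) ≠ D.col (D.lab z))
    (h3 : ∃ d, D.col d = D.col (D.lab z) ∧ d ≠ D.lab z) : False := by
  apply D.no_star hz ?_ ?_ h3 ⟨D.lab y, hyz⟩
  · intro x hx
    by_contra hn
    have hadj := D.nb_adj x (D.lab z) hx
    have hl := D.nb_lab x (D.lab z) hx
    have hF : D.InF (D.nb x (D.lab z)) := D.InF_lab hl.symm hz
    obtain ⟨u, hu, hne⟩ := hF
    have h := D.mem_N.1 hu x
    unfold op at h
    rw [D.off hn hu, mul_zero, zero_add, Finset.sum_eq_single (D.lab z)] at h
    · exact mul_ne_zero (D.w_pos _ _ hx).ne' hne h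
    · intro l _ hl'
      by_cases hcc : D.col (D.lab x) = D.col l
      · rw [D.w_zero _ _ hcc, zero_mul]
      · rw [D.off _ hu, mul_zero]
        intro hin
        apply hl'
        have h5 := D.nb_lab x l hcc
        rw [← h5]
        apply hc _ hin
        rw [h5]
        exact D.col_eq_of_ne (fun e => hcc e.symm) hx.symm
    · intro h; exact absurd (Finset.mem_univ _) h
  · intro x hx1 hx2 hin
    exact hx2 (hc x hin hx1)

theorem one_coloured (h2 : ∀ l, ∃ d, D.col d = D.col l ∧ d ≠ l) :
    ∃ k, ∀ x, D.InF x → D.col (D.lab x) = k := by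
  by_contra hcon
  push Not at hcon
  obtain ⟨x, hx, hxk⟩ := hcon true
  obtain ⟨y, hy, hyk⟩ := hcon false
  have hx' : D.col (D.lab x) = false := by simpa using hxk
  have hy' : D.col (D.lab y) = true := by simpa using hyk
  by_cases hA : ∀ z, D.InF z → D.col (D.lab z) = D.col (D.lab x) → D.lab z = D.lab x
  · exact D.no_single hx hy hA (by rw [hx', hy']; simp) (h2 _)
  by_cases hB : ∀ z, D.InF z → D.col (D.lab z) = D.col (D.lab y) → D.lab z = D.lab y
  · exact D.no_single hy hx hB (by rw [hx', hy']; simp) (h2 _)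
  push Not at hA hB
  obtain ⟨x', hx1, hx2, hx3⟩ := hA
  obtain ⟨y', hy1, hy2, hy3⟩ := hB
  apply D.no_cycle (i := D.lab x) (i' := D.lab x') (j := D.lab y) (j' := D.lab y')
    (by rw [hx', hy']; simp) hx2 hy2 (Ne.symm hx3) (Ne.symm hy3) _ x rfl
  intro z hz
  rcases hz with h | h | h | h
  · exact D.InF_lab h.symm hx
  · exact D.InF_lab h.symm hx1
  · exact D.InF_lab h.symm hy
  · exact D.InF_lab h.symm hy1

open Classical in
/-- Main theorem on the support. -/
theorem support (h2 : ∀ l, ∃ d, D.col d = D.col l ∧ d ≠ l) (hne : ∃ x, D.InF x) :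
    ∃ k, (∀ x, D.InF x → D.col (D.lab x) = k) ∧ (∀ x, D.InF x → D.b (D.lab x) = 0) ∧
      (Finset.univ.filter (fun l => D.col l ≠ k)).card <
      (Finset.univ.filter (fun l => ∃ x, D.lab x = l ∧ D.InF x)).card := by
  obtain ⟨k, hk⟩ := D.one_coloured h2
  refine ⟨k, hk, ?_, D.one_colour k hk hne⟩
  intro x hx
  obtain ⟨u, hu, hux⟩ := id hx
  have h := D.mem_N.1 hu x
  unfold op at h
  have h0 : ∑ l, D.w (D.lab x) l * u (D.nb x l) = 0 := by
    apply Finset.sum_eq_zero
    intro l _
    by_cases hcc : D.col (D.lab x) = D.col l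
    · rw [D.w_zero _ _ hcc, zero_mul]
    · rw [D.off _ hu, mul_zero]
      intro hin
      have h5 := hk _ hin
      rw [D.nb_lab x l hcc] at h5
      exact hcc ((hk x hx).trans h5.symm)
  rw [h0, add_zero] at h
  rcases mul_eq_zero.1 h with h1 | h1
  · exact h1
  · exact absurd h1 hux

end Dat

end Pool.Agent.H555RG
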